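import Pool.Agent.H23.RDD.Targets

/-!
# Row SK1 of the board `rdd_modules`: the Kummer group acts through roots of unity
-/

set_option autoImplicit false

namespace Pool.Agent.H42.RDD

open Pool.Agent.H23.RDD Pool.Agent.H24.RD NumberField Height Finset Polynomial

theorem inv_ext {F Ω : Type} [Field F] [Field Ω] [Algebra F Ω] {E : IntermediateField F Ω}
    (η : Ω ≃ₐ[F] Ω) (g : E ≃ₐ[F] E) (h : ∀ y : E, η (y : Ω) = (g y : Ω)) (z : E) :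
    η⁻¹ (z : Ω) = (g⁻¹ z : Ω) := by
  have e1 : ((g (g⁻¹ z) : E) : Ω) = (z : Ω) := by
    rw [← AlgEquiv.mul_apply, mul_inv_cancel]
    rfl
  calc η⁻¹ (z : Ω) = η⁻¹ (η ((g⁻¹ z : E) : Ω)) := by rw [h, e1]
    _ = ((g⁻¹ z : E) : Ω) := by
      rw [← AlgEquiv.mul_apply, inv_mul_cancel]
      rfl

theorem pow_root_le {M : Type} [Monoid M] (ξ : M) (p a b : ℕ) (hab : a ≤ b)
    (h : ξ ^ (p ^ a) = 1) : ξ ^ (p ^ b) = 1 := by
  obtain ⟨c, hc⟩ := pow_dvd_pow p hab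
  rw [hc, pow_mul, h, one_pow]

/-- The elements of the group of `E` with an extension which fixes `b`. -/
def stE (F Ω : Type) [Field F] [Field Ω] [Algebra F Ω] (E : IntermediateField F Ω) (b : Ω) :
    Subgroup (E ≃ₐ[F] E) where
  carrier := {g | ∃ η : Ω ≃ₐ[F] Ω, η b = b ∧ ∀ y : E, η (y : Ω) = (g y : Ω)}
  mul_mem' := by
    rintro g1 g2 ⟨η1, h1, h1'⟩ ⟨η2, h2, h2'⟩
    refine ⟨η1 * η2, ?_, fun y => ?_⟩
    · rw [AlgEquiv.mul_apply, h2, h1]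
    · rw [AlgEquiv.mul_apply, h2', h1', AlgEquiv.mul_apply]
  one_mem' := ⟨1, rfl, fun y => rfl⟩
  inv_mem' := by
    rintro g ⟨η, h, h'⟩
    refine ⟨η⁻¹, ?_, fun y => inv_ext η g h' y⟩
    calc η⁻¹ b = η⁻¹ (η b) := by rw [h]
      _ = b := by
        rw [← AlgEquiv.mul_apply, inv_mul_cancel]
        rfl

/-- Bezout for subgroups. -/
theorem sub_gcd {G : Type} [Group G] (T : Subgroup G) (h : G) (v w k : ℕ)
    (hv : h ^ v ∈ T) (hw : h ^ w ∈ T) (hk : Nat.gcd v w ∣ k) : h ^ k ∈ T := by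
  obtain ⟨c, hc⟩ := hk
  have e : h ^ k = (((h ^ v) ^ (Nat.gcdA v w)) * ((h ^ w) ^ (Nat.gcdB v w))) ^ c := by
    rw [← zpow_natCast h v, ← zpow_natCast h w, ← zpow_mul, ← zpow_mul, ← zpow_add,
      ← Nat.gcd_eq_gcd_ab, zpow_natCast, ← pow_mul, ← hc]
  rw [e]
  exact pow_mem (mul_mem (zpow_mem hv _) (zpow_mem hw _)) _

theorem pf_SK1D : T_LVB → T_CM → T_SKP → T_SK1D := by
  intro hLVB hCM hSKP F Ω _ _ _ _ _ _ _ p hp r γ hγ
  obtain ⟨C, hC⟩ := hSKP F Ω p hp r γ hγ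
  refine ⟨C, fun R d hd => ?_⟩
  obtain ⟨δ, n0, Q, hδ, hQ, hskp⟩ := hC R d hd
  refine ⟨δ, n0, Q, hδ, hQ, ?_⟩
  intro n m n1 n2 N' K' hL hn2 β hβ hcj g hg hga hh h hA
  have : IsAlgClosure F Ω := ⟨inferInstance, inferInstance⟩
  have : Normal F Ω := IsAlgClosure.normal F Ω
  have hpn : ∀ k : ℕ, p ^ k ≠ 0 := fun k => pow_ne_zero _ hp.ne_zero
  have h6 := hL.h6
  have h7 := hL.h7
  have hN0 : N' ≠ 0 := by
    rintro rfl
    exact h6 (dvd_zero p)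
  have hK0 : K' ≠ 0 := by
    rintro rfl
    exact hN0 (Nat.eq_zero_of_zero_dvd h7)
  obtain ⟨hfd, hgal, hζ, hθ, hadj, -⟩ := hLVB F Ω r γ hγ (p ^ n * N') (p ^ m * K')
    (Nat.pos_of_ne_zero (mul_ne_zero (pow_ne_zero _ hp.ne_zero) hN0))
    (Nat.pos_of_ne_zero (mul_ne_zero (pow_ne_zero _ hp.ne_zero) hK0))
  obtain ⟨τ, t, htV, ⟨ξ, hξ, htξ⟩, hτt, hb1, hb2⟩ := hskp n m n1 n2 N' K' hL β hβ hcj g hg hga hh
    (h.liftNormal Ω)
  set κ : Ω ≃ₐ[F] Ω := h.liftNormal Ω with hκ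
  have hκh : ∀ y : Lv F Ω γ (p ^ n * N') (p ^ m * K'), κ (y : Ω) = (h y : Ω) := fun y =>
    h.liftNormal_commutes Ω y
  -- the exponent
  obtain ⟨ζ0, hζ0⟩ := hζ
  have hζ1 : IsPrimitiveRoot (ζ0 ^ N') (p ^ n) := by
    refine hζ0.pow (Nat.pos_of_ne_zero (mul_ne_zero (hpn n) hN0)) ?_
    ring
  set ζ := ζ0 ^ N' with hζd
  have : NeZero (p ^ n) := ⟨hpn n⟩
  have htζ : (t ζ) ^ (p ^ n) = 1 := by
    rw [← map_pow, hζ1.pow_eq_one, map_one]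
  obtain ⟨u0, -, hu0⟩ := hζ1.eq_pow_of_pow_eq_one htζ
  have hu : ∀ z : Lv F Ω γ (p ^ n * N') (p ^ m * K'), z ^ (p ^ n) = 1 →
      t z = z ^ (u0 + p ^ n) := by
    intro z hz
    obtain ⟨k, -, hk⟩ := hζ1.eq_pow_of_pow_eq_one hz
    rw [pow_add, hz, mul_one, ← hk, map_pow, ← hu0]
    exact pow_right_comm ζ u0 k
  obtain ⟨hCM1, hCM2⟩ := hCM F (Lv F Ω γ (p ^ n * N') (p ^ m * K')) p hp r γ hγ n m n1 N' K'
    hL.h4 h6 h7 hadj t htV h hA _ hu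
  obtain ⟨v, hv⟩ : ∃ v, u0 + p ^ n = v + 1 := ⟨u0 + p ^ n - 1, by
    have := Nat.pos_of_ne_zero (hpn n)
    omega⟩
  rw [hv] at hCM1 hu
  -- the two elements of the group
  have hvT : h ^ v ∈ stE F Ω (Lv F Ω γ (p ^ n * N') (p ^ m * K')) (β ^ Q) := by
    refine ⟨κ⁻¹ * τ * κ * τ⁻¹, ?_, fun y => ?_⟩
    · have e1 : τ⁻¹ (β ^ Q) = β ^ Q := by
        calc τ⁻¹ (β ^ Q) = τ⁻¹ (τ (β ^ Q)) := by rw [map_pow τ, hb1]
          _ = β ^ Q := by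
            rw [← AlgEquiv.mul_apply, inv_mul_cancel]
            rfl
      have e2 : τ (κ (β ^ Q)) = κ (β ^ Q) := by
        rw [map_pow κ, map_pow τ, hb2]
      rw [AlgEquiv.mul_apply, e1, AlgEquiv.mul_apply, AlgEquiv.mul_apply, e2,
        ← AlgEquiv.mul_apply, inv_mul_cancel]
      rfl
    · have e0 := inv_ext τ t hτt
      have e0' := inv_ext κ h hκh
      rw [AlgEquiv.mul_apply, e0, AlgEquiv.mul_apply, hκh, AlgEquiv.mul_apply, hτt, e0']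
      have e3 : h ^ v = h⁻¹ * (t * h * t⁻¹) := by
        rw [hCM1, pow_succ']
        group
      rw [e3]
      rfl
  have hmT : h ^ (p ^ m) ∈ stE F Ω (Lv F Ω γ (p ^ n * N') (p ^ m * K')) (β ^ Q) := by
    rw [hCM2]
    exact one_mem _
  have hvn : ¬ p ^ n2 ∣ v := by
    rintro ⟨c, hc⟩
    apply htξ
    have h8 : ξ ^ (p ^ n) = 1 := pow_root_le ξ p n2 n hL.h2 hξ
    have h9 := hu ξ h8
    rw [pow_succ, hc, pow_mul, hξ, one_pow, one_mul] at h9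
    exact h9
  have hgcd : Nat.gcd v (p ^ m) ∣ p ^ (n2 - 1) := by
    obtain ⟨a, ha, hga⟩ := (Nat.dvd_prime_pow hp).1 (Nat.gcd_dvd_right v (p ^ m))
    rw [hga]
    apply pow_dvd_pow
    by_contra hcon
    apply hvn
    have h8 : n2 ≤ a := by omega
    exact (pow_dvd_pow p h8).trans (hga ▸ Nat.gcd_dvd_left v (p ^ m))
  obtain ⟨η, h1, h2⟩ := sub_gcd _ h v (p ^ m) (p ^ (n2 - 1)) hvT hmT hgcd
  refine ⟨η, h2, ?_⟩
  rw [← map_pow]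
  exact h1

end Pool.Agent.H42.RDD
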