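import Pool.Agent.H42.RDD.SK1

/-!
# Row SK2 of the board `rdd_modules`: correction of an element on which the top Kummer group acts
through roots of unity
-/

set_option autoImplicit false

namespace Pool.Agent.H42.RDD

open Pool.Agent.H23.RDD Pool.Agent.H24.RD NumberField Height Finset Polynomial

/-- The top Kummer group. -/
def topG (F M : Type) [Field F] [Field M] [Algebra F M] {r : ℕ} (γ : Fin r → F) (p m N K' : ℕ) :
    Subgroup (M ≃ₐ[F] M) where
  carrier := {h | InTop F M γ p m N K' h}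
  mul_mem' := by
    rintro s t ⟨hs1, hs2⟩ ⟨ht1, ht2⟩
    exact ⟨mul_mem hs1 ht1, fun y i hy => by rw [AlgEquiv.mul_apply, ht2 y i hy, hs2 y i hy]⟩
  one_mem' := ⟨one_mem _, fun y _ _ => rfl⟩
  inv_mem' := by
    rintro t ⟨ht1, ht2⟩
    refine ⟨inv_mem ht1, fun y i hy => ?_⟩
    have h := ht2 y i hy
    calc t⁻¹ y = t⁻¹ (t y) := by rw [h]
      _ = y := by
        rw [← AlgEquiv.mul_apply, inv_mul_cancel]
        rfl

theorem pf_SK2D : T_LVB → T_CHR → T_TPF → T_SK2D := by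
  intro hLVB hCHR hTPF F Ω _ _ _ _ _ _ _ p hp r γ hγ n m N' K' Q d hm hmn hN hK hQ hQd β hβ
    hcj hred H
  classical
  have hN0 : 0 < N' := Nat.pos_of_ne_zero fun h => hN (h ▸ dvd_zero p)
  have hK0 : 0 < K' := Nat.pos_of_dvd_of_pos hK hN0
  have hp0 := hp.pos
  obtain ⟨hfd, hgal, hζ, hθ, hadj, -⟩ := hLVB F Ω r γ hγ (p ^ n * N') (p ^ m * K')
    (by positivity) (by positivity)
  have hroot : ∀ z : Ω, z ^ (p ^ n * N') = 1 → z ∈ Lv F Ω γ (p ^ n * N') (p ^ m * K') :=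
    fun z hz => IntermediateField.subset_adjoin F _ (Or.inl hz)
  have htpf := hTPF F Ω p hp r γ hγ n m N' K' hm hmn hN hK
  revert hcj hred H hζ hθ hadj hroot htpf
  generalize hE : Lv F Ω γ (p ^ n * N') (p ^ m * K') = E at hfd hgal
  intro hcj hred H hζ hθ hadj hroot htpf
  obtain ⟨hcp, hchr⟩ := hCHR F E p hp r γ hγ n m N' K' hm hmn hN hK hζ hθ hadj
  choose η hη1 hη2 using H
  -- uniqueness
  have huniq : ∀ (η1 η2 : Ω ≃ₐ[F] Ω), (∀ y : E, η1 (y : Ω) = η2 (y : Ω)) →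
      (η1 β) ^ Q = β ^ Q → (η2 β) ^ Q = β ^ Q → η1 β = η2 β := by
    intro η1 η2 h12 h1 h2
    have e0 : ∀ z : Ω, η1⁻¹ (η1 z) = z := by
      intro z
      rw [← AlgEquiv.mul_apply, inv_mul_cancel]
      rfl
    have e1 : ∀ z ∈ E, (η1⁻¹ * η2) z = z := by
      intro z hz
      rw [AlgEquiv.mul_apply, ← h12 ⟨z, hz⟩]
      exact e0 z
    have e2 : ((η1⁻¹ * η2) β) ^ Q = β ^ Q := by
      rw [AlgEquiv.mul_apply, ← map_pow, h2]
      calc η1⁻¹ (β ^ Q) = η1⁻¹ (η1 (β ^ Q)) := by rw [map_pow η1, h1]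
        _ = β ^ Q := e0 _
    have e3 := hred _ e1 Q hQ e2
    have e4 := congrArg η1 e3
    rw [AlgEquiv.mul_apply, ← AlgEquiv.mul_apply η1, mul_inv_cancel] at e4
    exact e4.symm
  have hc : ∀ h (hh : InTop F E γ p m (p ^ n * N') K' h), (η h hh β / β) ^ (p ^ n * N') = 1 := by
    intro h hh
    obtain ⟨c, hc⟩ := hQd
    rw [hc, pow_mul, div_pow, hη2, div_self (pow_ne_zero _ hβ), one_pow]
  have hcE : ∀ h (hh : InTop F E γ p m (p ^ n * N') K' h), η h hh β / β ∈ E := fun h hh =>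
    hroot _ (hc h hh)
  let χ : (E ≃ₐ[F] E) → E := fun h =>
    if hh : InTop F E γ p m (p ^ n * N') K' h then ⟨η h hh β / β, hcE h hh⟩ else 1
  have hχ : ∀ h (hh : InTop F E γ p m (p ^ n * N') K' h), (χ h : Ω) = η h hh β / β := by
    intro h hh
    have e : χ h = ⟨η h hh β / β, hcE h hh⟩ := dif_pos hh
    rw [e]
  have hχ' : ∀ h (hh : InTop F E γ p m (p ^ n * N') K' h), η h hh β = (χ h : Ω) * β := by
    intro h hh
    rw [hχ h hh, div_mul_cancel₀ _ hβ]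
  have hχr : ∀ h (hh : InTop F E γ p m (p ^ n * N') K' h), (χ h) ^ (p ^ n * N') = 1 := by
    intro h hh
    apply Subtype.ext
    rw [SubmonoidClass.coe_pow, hχ h hh, hc h hh]
    rfl
  have hmul : ∀ h h' : E ≃ₐ[F] E, InTop F E γ p m (p ^ n * N') K' h →
      InTop F E γ p m (p ^ n * N') K' h' → χ (h * h') = χ h * χ h' := by
    intro h h' hh hh'
    have hhh : InTop F E γ p m (p ^ n * N') K' (h * h') :=
      (topG F E γ p m (p ^ n * N') K').mul_mem hh hh'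
    have e1 : η h hh (η h' hh' β) = (χ h : Ω) * (χ h' : Ω) * β := by
      rw [hχ' h' hh', map_mul, hη1, hχ' h hh, hh.1 (χ h') (Or.inl (hχr h' hh'))]
      ring
    have e2 : η (h * h') hhh β = (η h hh * η h' hh') β := by
      apply huniq
      · intro y
        rw [hη1, AlgEquiv.mul_apply, AlgEquiv.mul_apply, hη1, hη1]
      · exact hη2 _ _
      · rw [AlgEquiv.mul_apply, ← map_pow, hη2, map_pow, hη2]
    rw [AlgEquiv.mul_apply, e1, hχ' _ hhh] at e2
    apply Subtype.ext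
    exact mul_right_cancel₀ hβ e2
  have hχ0 : ∀ h (hh : InTop F E γ p m (p ^ n * N') K' h), χ h ≠ 0 := by
    intro h hh e
    have := hχr h hh
    rw [e, zero_pow (by positivity)] at this
    exact zero_ne_one this
  have h1top : InTop F E γ p m (p ^ n * N') K' 1 := one_mem (topG F E γ p m (p ^ n * N') K')
  have hχ1 : χ 1 = 1 := by
    have e := hmul 1 1 h1top h1top
    rw [mul_one] at e
    exact (mul_eq_left₀ (hχ0 1 h1top)).1 e.symm
  have hχk : ∀ h (_ : InTop F E γ p m (p ^ n * N') K' h) (k : ℕ), χ (h ^ k) = (χ h) ^ k := by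
    intro h hh k
    induction k with
    | zero => rw [pow_zero, pow_zero, hχ1]
    | succ k ih =>
      have hk : InTop F E γ p m (p ^ n * N') K' (h ^ k) :=
        (topG F E γ p m (p ^ n * N') K').pow_mem hh k
      rw [pow_succ, hmul _ _ hk hh, ih, pow_succ]
  have hχp : ∀ h : E ≃ₐ[F] E, InTop F E γ p m (p ^ n * N') K' h → (χ h) ^ p = 1 := by
    intro h hh
    rw [← hχk h hh, hcp h hh, hχ1]
  obtain ⟨x, θ, hθ1, hθ2⟩ := hchr χ hmul hχp
  have hg0 : ∀ i, algebraMap F E (γ i) ≠ 0 := fun i =>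
    (map_ne_zero_iff _ (algebraMap F E).injective).2 (hγ i)
  have hθ0 : ∀ i, θ i ≠ 0 := by
    intro i h
    have := hθ1 i
    rw [h, zero_pow (pow_ne_zero _ hp.ne_zero)] at this
    exact hg0 i this.symm
  set g : E := ∏ i, θ i ^ x i with hg
  have hT0 : g ≠ 0 := Finset.prod_ne_zero_iff.2 fun i _ => pow_ne_zero _ (hθ0 i)
  have hgΩ : (g : Ω) ≠ 0 := by
    intro h
    exact hT0 (by exact_mod_cast h)
  have hhg : ∀ h : E ≃ₐ[F] E, InTop F E γ p m (p ^ n * N') K' h → h g = χ h * g := by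
    intro h hh
    rw [hθ2 h hh, hg, map_prod, ← Finset.prod_mul_distrib]
    refine Finset.prod_congr rfl fun i _ => ?_
    rw [map_pow, ← mul_pow, div_mul_cancel₀ _ (hθ0 i)]
  -- the corrected element
  have hfix : ∀ h (hh : InTop F E γ p m (p ^ n * N') K' h), η h hh (β / g) = β / g := by
    intro h hh
    have e1 : (χ h : Ω) ≠ 0 := by
      intro e
      exact hχ0 h hh (by exact_mod_cast e)
    rw [map_div₀, hη1, hhg h hh, hχ' h hh]
    push_cast
    rw [mul_div_mul_left _ _ e1]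
  have hlow : ∀ σ : Ω ≃ₐ[F] Ω, (∀ z ∈ Lv F Ω γ (p ^ n * N') (p ^ (m - 1) * K'), σ z = z) →
      ∃ υ : Ω ≃ₐ[F] Ω, (∀ z ∈ E, υ z = z) ∧ σ (β / g) = υ β / g := by
    intro σ hσ
    obtain ⟨h, hh, hσh⟩ := htpf σ hσ
    have e0 := inv_ext (η h hh) h (hη1 h hh)
    have e1 : ∀ z ∈ E, (σ * (η h hh)⁻¹) z = z := by
      intro z hz
      have e2 := e0 ⟨z, hz⟩
      rw [AlgEquiv.mul_apply]
      have e3 : (η h hh)⁻¹ z = ((h⁻¹ ⟨z, hz⟩ : E) : Ω) := e2
      rw [e3, hσh, ← AlgEquiv.mul_apply, mul_inv_cancel]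
      rfl
    refine ⟨σ * (η h hh)⁻¹, e1, ?_⟩
    have e4 : σ (β / g) = (σ * (η h hh)⁻¹) (β / g) := by
      rw [AlgEquiv.mul_apply]
      have e5 : (η h hh)⁻¹ (β / (g : Ω)) = β / g := by
        conv_lhs => rw [← hfix h hh]
        rw [← AlgEquiv.mul_apply, inv_mul_cancel]
        rfl
      rw [e5]
    rw [e4, map_div₀, e1 (g : Ω) g.2]
  refine ⟨β / g, div_ne_zero hβ hgΩ, ?_, ?_, (g : Ω), ⟨hgΩ, p ^ m, by positivity,
    fun i => (x i : ℤ), ?_⟩, ?_⟩
  · obtain ⟨s, hs, hs'⟩ := hcj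
    refine ⟨s.image (fun z => z / (g : Ω)), Finset.card_image_le.trans hs, ?_⟩
    intro σ hσ
    obtain ⟨υ, h1, h2⟩ := hlow σ hσ
    rw [h2]
    exact Finset.mem_image.2 ⟨υ β, hs' υ h1, rfl⟩
  · intro σ hσ k hk hkk
    obtain ⟨υ, h1, h2⟩ := hlow σ hσ
    rw [h2, div_pow, div_pow] at hkk
    have e1 := (div_left_inj' (pow_ne_zero k hgΩ)).1 hkk
    rw [h2, hred υ h1 k hk e1]
  · have e1 : g ^ (p ^ m) = ∏ i, (algebraMap F E (γ i)) ^ x i := by
      rw [hg, ← Finset.prod_pow]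
      refine Finset.prod_congr rfl fun i _ => ?_
      rw [← pow_mul, mul_comm (x i), pow_mul, hθ1 i]
    have e2 := congrArg (Subtype.val) e1
    simp only [zpow_natCast]
    push_cast at e2 ⊢
    exact e2
  · rw [div_mul_cancel₀ _ hgΩ]

end Pool.Agent.H42.RDD
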